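import Pool.Agent.Q237.LR.Stm
import Mathlib.Algebra.Module.ZLattice.Summable

set_option autoImplicit false

/-! Project LR, job POW1: summability of the power law on `ℤ^d`. -/

namespace Pool.Agent.Q223.LR

open Pool.Agent.Q237.LR

/-- the integer points in `ℝ^d` -/
noncomputable def Lt (d : ℕ) : Submodule ℤ (Fin d → ℝ) :=
  Submodule.span ℤ (Set.range (Pi.basisFun ℝ (Fin d)))

lemma mem_Lt (d : ℕ) (z : Fin d → ℤ) : (fun i => (z i : ℝ)) ∈ Lt d := by
  unfold Lt
  rw [Module.Basis.mem_span_iff_repr_mem]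
  intro i
  exact ⟨z i, by simp⟩

lemma nrm_eq (d : ℕ) (z : Fin d → ℤ) : ‖(fun i => (z i : ℝ) : Fin d → ℝ)‖ = ‖z‖ := by
  simp only [Pi.norm_def]
  congr 1

lemma summ (d : ℕ) (r : ℝ) (hr : r < -(d : ℝ)) : Summable fun z : Fin d → ℤ => ‖z‖ ^ r := by
  have hdisc : DiscreteTopology (Lt d) := by unfold Lt; infer_instance
  have hz : IsZLattice ℝ (Lt d) := by unfold Lt; infer_instance
  have hf : Module.finrank ℤ (Lt d) = d := by
    rw [ZLattice.rank ℝ (Lt d)]; simp
  have h := ZLattice.summable_norm_rpow (Lt d) r (by rw [hf]; exact hr)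
  let f : (Fin d → ℤ) → Lt d := fun z => ⟨fun i => (z i : ℝ), mem_Lt d z⟩
  have hinj : Function.Injective f := by
    intro z w hzw
    have := congrArg Subtype.val hzw
    funext i
    have h2 : (z i : ℝ) = (w i : ℝ) := congrFun this i
    exact_mod_cast h2
  refine (h.comp_injective hinj).congr fun z => ?_
  change ‖(fun i => (z i : ℝ) : Fin d → ℝ)‖ ^ r = _
  rw [nrm_eq]

/-- Job POW1. -/
theorem pow1 : S_POW1 := by
  intro d α e hd hα
  have hd0 : (1 : ℝ) ≤ d := by exact_mod_cast hd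
  have key : ∀ z : Fin d → ℤ, (if z = 0 then 0 else e * ‖z‖ ^ (-α)) ^ 2 = e ^ 2 * ‖z‖ ^ (-(2 * α)) := by
    intro z
    split_ifs with hz
    · subst hz
      rw [norm_zero, Real.zero_rpow (by linarith)]; simp
    · have hp : 0 < ‖z‖ := norm_pos_iff.2 hz
      rw [mul_pow, ← Real.rpow_natCast (‖z‖ ^ (-α)) 2, ← Real.rpow_mul hp.le]
      congr 2
      push_cast; ring
  refine ⟨?_, min 1 ((2 * α - d) / 2), ?_, ?_, ?_⟩
  · refine ((summ d (-(2 * α)) (by linarith)).mul_left (e ^ 2)).congr fun z => (key z).symm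
  · exact lt_min one_pos (by linarith)
  · exact (min_le_left _ _).trans (by norm_num)
  · set θ : ℝ := min 1 ((2 * α - d) / 2) with hθ
    have h1 : θ ≤ (2 * α - d) / 2 := min_le_right _ _
    have h2 : 0 < θ := lt_min one_pos (by linarith)
    refine ((summ d (θ - 2 * α) (by linarith)).mul_left (e ^ 2)).congr fun z => ?_
    rw [key z]
    by_cases hz : z = 0
    · subst hz
      rw [norm_zero, Real.zero_rpow (by linarith), Real.zero_rpow h2.ne']; simp
    · have hp : 0 < ‖z‖ := norm_pos_iff.2 hz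
      rw [mul_assoc, ← Real.rpow_add hp]
      congr 2
      ring

end Pool.Agent.Q223.LR
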